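import Pool.Agent.TH985.WP.Final
import Pool.Agent.Y104.WPS.Shift
import Pool.Agent.Y104.WPS.Cone

/-!
# The product inequality for nonnegative combinations of powers of shifted Wishart minors

The starting result `WishartProductInequality` proves `E ∏ |X_ii| ^ ν i ≥ ∏ E |X_ii| ^ ν i` for the
diagonal blocks of a Wishart matrix `X`.  Here the functions `|X_ii| ^ ν i` are replaced by
arbitrary nonnegative combinations `∑ c_k |C_k X C_kᵀ + P_k| ^ ν_k` with arbitrary rectangular
matrices `C_k`, positive semidefinite matrices `P_k` and exponents `ν_k ≥ 0`.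
-/

set_option autoImplicit false
open MeasureTheory Matrix
open Pool.Agent.TH985.WP

namespace Pool.Agent.Results.MP_9d9c13_pr.CombinationsOfShiftedMinors

/-- **The product inequality for nonnegative combinations of powers of shifted Wishart minors.**
(1) Let `X ∼ W_N(α, S)` with `S` positive definite, let `p 0, …, p (d-1)` be nonnegative integers
and let `α > N - 1` and `α > ∑ p i - 1`. For each `i < d` let `f_i` be a function of the form
`f_i(X) = ∑ k, c_ik |C_ik X C_ikᵀ + P_ik| ^ ν_ik` (a finite sum), where `c_ik ≥ 0`, `ν_ik ≥ 0` are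
real numbers, `C_ik` is any real matrix with `N` columns and `q i k` rows, `1 ≤ q i k ≤ p i`, and
`P_ik` is any positive semidefinite matrix. Then the expectations of the `f_i` and of their product
are finite and `∏ E f_i(X) ≤ E ∏ f_i(X)`.
(2) In the setting of the question, `X ∼ W_p(α, S)` with `p = ∑ p i`, `p i ≥ 1` and `α > p - 1`, the
law is a probability measure and `∏ E |X_ii + P_i| ^ ν i ≤ E ∏ |X_ii + P_i| ^ ν i` for the diagonal
blocks `X_ii`, all positive semidefinite `P_i` and all `ν i ≥ 0` (the question is `P_i = 0`). -/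
theorem result :
    (∀ (N d : ℕ) (m : Fin d → ℕ) (p : Fin d → ℕ) (q : ∀ i, Fin (m i) → ℕ),
      (∀ i k, 1 ≤ q i k) → (∀ i k, q i k ≤ p i) →
      ∀ α : ℝ, (N : ℝ) - 1 < α → ((∑ i, p i : ℕ) : ℝ) - 1 < α →
      ∀ S : Matrix (Fin N) (Fin N) ℝ, S.PosDef →
      ∀ c : ∀ i, Fin (m i) → ℝ, (∀ i k, 0 ≤ c i k) →
      ∀ C : ∀ i k, Matrix (Fin (q i k)) (Fin N) ℝ,
      ∀ P : ∀ i k, Matrix (Fin (q i k)) (Fin (q i k)) ℝ, (∀ i k, (P i k).PosSemidef) →
      ∀ ν : ∀ i, Fin (m i) → ℝ, (∀ i k, 0 ≤ ν i k) →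
        (∀ i, Integrable
          (fun x => ∑ k, c i k * (C i k * symm x * (C i k)ᵀ + P i k).det ^ ν i k)
          (wishart α S)) ∧
        Integrable
          (fun x => ∏ i, ∑ k, c i k * (C i k * symm x * (C i k)ᵀ + P i k).det ^ ν i k)
          (wishart α S) ∧
        ∏ i, ∫ x, ∑ k, c i k * (C i k * symm x * (C i k)ᵀ + P i k).det ^ ν i k
            ∂(wishart α S) ≤
          ∫ x, ∏ i, ∑ k, c i k * (C i k * symm x * (C i k)ᵀ + P i k).det ^ ν i k
            ∂(wishart α S)) ∧
    (∀ (d : ℕ) (p : Fin d → ℕ), (∀ i, 1 ≤ p i) →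
      ∀ α : ℝ, ((∑ i, p i : ℕ) : ℝ) - 1 < α →
      ∀ S : Matrix ((i : Fin d) × Fin (p i)) ((i : Fin d) × Fin (p i)) ℝ, S.PosDef →
        IsProbabilityMeasure (wishart α S) ∧
        ∀ P : ∀ i, Matrix (Fin (p i)) (Fin (p i)) ℝ, (∀ i, (P i).PosSemidef) →
        ∀ ν : Fin d → ℝ, (∀ i, 0 ≤ ν i) →
          (∀ i, Integrable
            (fun x => ((symm x).submatrix (Sigma.mk i) (Sigma.mk i) + P i).det ^ ν i)
            (wishart α S)) ∧
          Integrable
            (fun x => ∏ i, ((symm x).submatrix (Sigma.mk i) (Sigma.mk i) + P i).det ^ ν i)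
            (wishart α S) ∧
          ∏ i, ∫ x, ((symm x).submatrix (Sigma.mk i) (Sigma.mk i) + P i).det ^ ν i
              ∂(wishart α S) ≤
            ∫ x, ∏ i, ((symm x).submatrix (Sigma.mk i) (Sigma.mk i) + P i).det ^ ν i
              ∂(wishart α S)) := by
  constructor
  · intro N d m p q hq hqp α hα hα' S hS c hc C P hP ν hν
    exact Pool.Agent.Y104.WPS.cone_version N d m p q hq hqp α hα hα' S hS c hc C P hP ν hν
  · intro d p hp α hα S hS
    have : ∀ i, Nonempty (Fin (p i)) := fun i => ⟨⟨0, hp i⟩⟩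
    have hcard : Fintype.card ((i : Fin d) × Fin (p i)) = ∑ i, p i := by
      rw [Fintype.card_sigma]
      simp
    have hα1 : (Fintype.card ((i : Fin d) × Fin (p i)) : ℝ) - 1 < α := by
      rw [hcard]
      exact hα
    refine ⟨(wishart_prod (I := Fin d) (B := fun i => Fin (p i)) α hα1 S hS).1, ?_⟩
    intro P hP ν hν
    have hb : ∀ (i : Fin d)
        (W : Matrix ((i : Fin d) × Fin (p i)) ((i : Fin d) × Fin (p i)) ℝ),
        dblk ((1 : Matrix ((i : Fin d) × Fin (p i)) ((i : Fin d) × Fin (p i)) ℝ) * W *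
          (1 : Matrix ((i : Fin d) × Fin (p i)) ((i : Fin d) × Fin (p i)) ℝ)ᵀ) i =
          W.submatrix (Sigma.mk i) (Sigma.mk i) := by
      intro i W
      rw [Matrix.transpose_one, Matrix.one_mul, Matrix.mul_one]
      rfl
    have h := Pool.Agent.Y104.WPS.wishart_shift (I := Fin d) (B := fun i => Fin (p i))
      (n := (i : Fin d) × Fin (p i)) α hα1 (by simpa using hα) S hS 1 P hP ν hν
    simp only [hb] at h
    exact h

end Pool.Agent.Results.MP_9d9c13_pr.CombinationsOfShiftedMinors
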